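import Mathlib

set_option autoImplicit false

namespace Pool.Agent.U367.NC

open Filter Topology Set

/-- sequences of numerators and denominators with prescribed partial quotients -/
theorem exists_conv (A : ℕ → ℕ → ℕ → ℕ) (p0 q0 p1 q1 : ℕ) :
    ∃ P Q : ℕ → ℕ, P 0 = p0 ∧ Q 0 = q0 ∧ P 1 = p1 ∧ Q 1 = q1 ∧
      ∀ i, P (i+2) = A i (P (i+1)) (Q (i+1)) * P (i+1) + P i ∧
           Q (i+2) = A i (P (i+1)) (Q (i+1)) * Q (i+1) + Q i := by
  let f : ℕ → (ℕ × ℕ) × (ℕ × ℕ) := fun i => Nat.rec ((p0,q0),(p1,q1))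
    (fun i s => (s.2, (A i s.2.1 s.2.2 * s.2.1 + s.1.1, A i s.2.1 s.2.2 * s.2.2 + s.1.2))) i
  exact ⟨fun i => (f i).1.1, fun i => (f i).1.2, rfl, rfl, rfl, rfl, fun i => ⟨rfl, rfl⟩⟩

theorem det {P Q a : ℕ → ℕ} (hP : ∀ i, P (i+2) = a i * P (i+1) + P i)
    (hQ : ∀ i, Q (i+2) = a i * Q (i+1) + Q i) (hd : P 1 * Q 0 = P 0 * Q 1 + 1) (i : ℕ) :
    (P (i+1) : ℤ) * Q i - P i * Q (i+1) = (-1)^i := by
  induction i with
  | zero => have : (P 1 : ℤ) * Q 0 = P 0 * Q 1 + 1 := by exact_mod_cast hd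
            simp; linarith
  | succ i ih =>
    rw [hP i, hQ i]; push_cast
    rw [pow_succ, ← ih]; ring

theorem qpos {Q a : ℕ → ℕ} (hQ : ∀ i, Q (i+2) = a i * Q (i+1) + Q i) (ha : ∀ i, 1 ≤ a i)
    (h0 : 0 < Q 0) (h01 : Q 0 < Q 1) : ∀ i, 0 < Q i ∧ Q i < Q (i+1) := by
  intro i
  induction i with
  | zero => exact ⟨h0, h01⟩
  | succ i ih =>
    refine ⟨by omega, ?_⟩
    rw [hQ i]
    have := Nat.mul_le_mul_right (Q (i+1)) (ha i)
    omega

theorem exists_limit {P Q a : ℕ → ℕ} (hP : ∀ i, P (i+2) = a i * P (i+1) + P i)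
    (hQ : ∀ i, Q (i+2) = a i * Q (i+1) + Q i) (hpos : ∀ i, 0 < Q i) :
    ∃ θ : ℝ, (∀ i, ((Q i : ℝ) * θ - P i) * ((Q (i+1) : ℝ) * θ - P (i+1)) ≤ 0) ∧
      θ ∈ uIcc ((P 0 : ℝ) / Q 0) (P 1 / Q 1) := by
  let c : ℕ → ℝ := fun i => (P i : ℝ) / Q i
  have hc : ∀ i, c (i+2) ∈ uIcc (c i) (c (i+1)) := by
    intro i
    rw [← segment_eq_uIcc]
    have h0 : (0 : ℝ) < Q i := by exact_mod_cast hpos i
    have h1 : (0 : ℝ) < Q (i+1) := by exact_mod_cast hpos (i+1)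
    have h2 : (0 : ℝ) < a i * Q (i+1) + Q i := by positivity
    refine ⟨Q i / (a i * Q (i+1) + Q i), a i * Q (i+1) / (a i * Q (i+1) + Q i), by positivity,
      by positivity, by field_simp; ring, ?_⟩
    simp only [c, smul_eq_mul, hP i, hQ i]
    push_cast
    field_simp
    ring
  have hsub : ∀ i, uIcc (c (i+1)) (c (i+1+1)) ⊆ uIcc (c i) (c (i+1)) := by
    intro i
    exact uIcc_subset_uIcc right_mem_uIcc (hc i)
  have hne := IsCompact.nonempty_iInter_of_sequence_nonempty_isCompact_isClosed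
    (fun i => uIcc (c i) (c (i+1))) hsub (fun i => nonempty_uIcc) isCompact_uIcc
    (fun i => isCompact_uIcc.isClosed)
  obtain ⟨θ, hθ⟩ := hne
  rw [mem_iInter] at hθ
  refine ⟨θ, fun i => ?_, hθ 0⟩
  have h0 : (0 : ℝ) < Q i := by exact_mod_cast hpos i
  have h1 : (0 : ℝ) < Q (i+1) := by exact_mod_cast hpos (i+1)
  have e0 : (Q i : ℝ) * θ - P i = Q i * (θ - c i) := by simp only [c]; field_simp
  have e1 : (Q (i+1) : ℝ) * θ - P (i+1) = Q (i+1) * (θ - c (i+1)) := by simp only [c]; field_simp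
  rw [e0, e1]
  have h2 : (θ - c i) * (θ - c (i+1)) ≤ 0 := by
    rcases mem_uIcc.1 (hθ i) with h | h <;> nlinarith [h.1, h.2]
  have h3 : 0 < (Q i : ℝ) * Q (i+1) := by positivity
  nlinarith

theorem sum_one {P Q P' Q' : ℕ} {θ : ℝ} (hd : |(P' : ℤ) * Q - P * Q'| = 1)
    (h : ((Q : ℝ) * θ - P) * (Q' * θ - P') ≤ 0) :
    (Q' : ℝ) * |Q * θ - P| + Q * |Q' * θ - P'| = 1 := by
  have hd' : |(P' : ℝ) * Q - P * Q'| = 1 := by exact_mod_cast hd
  have e : (P' : ℝ) * Q - P * Q' = Q' * (Q * θ - P) - Q * (Q' * θ - P') := by ring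
  rw [e] at hd'
  have hQ : (0 : ℝ) ≤ Q := Nat.cast_nonneg _
  have hQ' : (0 : ℝ) ≤ Q' := Nat.cast_nonneg _
  rcases mul_nonpos_iff.1 h with ⟨h1, h2⟩ | ⟨h1, h2⟩
  · rw [abs_of_nonneg h1, abs_of_nonpos h2]
    rw [abs_of_nonneg (by nlinarith [mul_nonneg hQ' h1, mul_nonneg hQ (neg_nonneg.2 h2)])] at hd'
    linarith
  · rw [abs_of_nonpos h1, abs_of_nonneg h2]
    rw [abs_of_nonpos (by nlinarith [mul_nonneg hQ' (neg_nonneg.2 h1), mul_nonneg hQ h2])] at hd'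
    linarith

theorem near {P Q P' Q' : ℕ} {θ : ℝ} (hd : |(P' : ℤ) * Q - P * Q'| = 1)
    (h : ((Q : ℝ) * θ - P) * (Q' * θ - P') ≤ 0) (he : 1 ≤ 2 * Q' * |Q * θ - P|)
    {n m : ℕ} (hc : n.Coprime m) (h1 : Q ≤ n) (h2 : n < Q') (hQ : 0 < Q) (hne : (n, m) ≠ (Q, P)) :
    1 ≤ 4 * n * |n * θ - m| := by
  set δ : ℤ := (P' : ℤ) * Q - P * Q' with hδ
  have hδ2 : δ * δ = 1 := by
    rcases abs_eq (by norm_num : (0 : ℤ) ≤ 1) |>.1 hd with h | h <;> rw [h] <;> norm_num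
  obtain ⟨x, hx⟩ : ∃ x : ℤ, x = δ * (n * P' - m * Q') := ⟨_, rfl⟩
  obtain ⟨y, hy⟩ : ∃ y : ℤ, y = δ * (m * Q - n * P) := ⟨_, rfl⟩
  have en : x * Q + y * Q' = n := by
    calc x * Q + y * Q' = n * (δ * ((P' : ℤ) * Q - P * Q')) := by rw [hx, hy]; ring
      _ = n := by rw [← hδ, hδ2, mul_one]
  have em : x * P + y * P' = m := by
    calc x * P + y * P' = m * (δ * ((P' : ℤ) * Q - P * Q')) := by rw [hx, hy]; ring
      _ = m := by rw [← hδ, hδ2, mul_one]
  have hn0 : 0 < n := by omega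
  have hy0 : y ≠ 0 := by
    intro hy0
    rw [hy0, zero_mul, add_zero] at en em
    have hx1 : x ∣ 1 := by
      have : IsCoprime (n : ℤ) m := Nat.isCoprime_iff_coprime.2 hc
      rw [← en, ← em] at this
      obtain ⟨u, v, huv⟩ := this
      exact ⟨u * Q + v * P, by rw [← huv]; ring⟩
    have hxpos : 0 < x := by
      by_contra hx0
      push Not at hx0
      have : x * Q ≤ 0 := mul_nonpos_of_nonpos_of_nonneg hx0 (by positivity)
      omega
    have hx2 : x = 1 := by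
      have := Int.le_of_dvd one_pos hx1
      omega
    rw [hx2, one_mul] at en em
    exact hne (Prod.ext (by exact_mod_cast en.symm) (by exact_mod_cast em.symm))
  have hQ' : (0 : ℝ) < Q' := by
    have : 0 < Q' := by omega
    exact_mod_cast this
  have hQr : (0 : ℝ) < Q := by exact_mod_cast hQ
  have hnr : (0 : ℝ) < n := by exact_mod_cast hn0
  -- signs
  have key : (x ≤ -1 ∧ 1 ≤ y ∨ 1 ≤ x ∧ y ≤ -1) ∧ (Q' : ℤ) - n ≤ |x| * Q := by
    rcases lt_or_gt_of_ne hy0 with hy1 | hy1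
    · have h3 : (Q' : ℤ) ≤ -y * Q' := le_mul_of_one_le_left (by positivity) (by omega)
      have h4 : (n : ℤ) + Q' ≤ x * Q := by linarith
      have h5 : 0 < x := by
        by_contra hx0
        push Not at hx0
        have : x * Q ≤ 0 := mul_nonpos_of_nonpos_of_nonneg hx0 (by positivity)
        omega
      refine ⟨Or.inr ⟨h5, by omega⟩, ?_⟩
      rw [abs_of_pos h5]; linarith
    · have h3 : (Q' : ℤ) ≤ y * Q' := le_mul_of_one_le_left (by positivity) (by omega)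
      have h4 : x * Q ≤ (n : ℤ) - Q' := by linarith
      have h5 : x < 0 := by
        by_contra hx0
        push Not at hx0
        have : 0 ≤ x * Q := by positivity
        omega
      refine ⟨Or.inl ⟨by omega, hy1⟩, ?_⟩
      rw [abs_of_neg h5]; linarith
  obtain ⟨hs, hxQ⟩ := key
  have hx1 : (1 : ℝ) ≤ |(x : ℝ)| := by
    have : (1 : ℤ) ≤ |x| := by
      rcases hs with h | h
      · rw [abs_of_neg (by omega)]; omega
      · rw [abs_of_pos (by omega)]; omega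
    exact_mod_cast this
  have hxQr : (Q' : ℝ) - n ≤ |(x : ℝ)| * Q := by exact_mod_cast hxQ
  have enr : (x : ℝ) * Q + y * Q' = n := by exact_mod_cast en
  have emr : (x : ℝ) * P + y * P' = m := by exact_mod_cast em
  have e : (n : ℝ) * θ - m = x * (Q * θ - P) + y * (Q' * θ - P') := by
    rw [← enr, ← emr]; ring
  have hlow : |(x : ℝ)| * |(Q : ℝ) * θ - P| ≤ |n * θ - m| := by
    rw [e]
    set X := (Q : ℝ) * θ - P
    set X' := (Q' : ℝ) * θ - P'
    rcases mul_nonpos_iff.1 h with ⟨hX, hX'⟩ | ⟨hX, hX'⟩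
    · rcases hs with ⟨h3, h4⟩ | ⟨h3, h4⟩
      · have h3r : (x : ℝ) ≤ -1 := by exact_mod_cast h3
        have h4r : (1 : ℝ) ≤ y := by exact_mod_cast h4
        rw [abs_of_neg (by linarith), abs_of_nonneg hX]
        rw [abs_of_nonpos (by nlinarith)]
        nlinarith
      · have h3r : (1 : ℝ) ≤ x := by exact_mod_cast h3
        have h4r : (y : ℝ) ≤ -1 := by exact_mod_cast h4
        rw [abs_of_pos (by linarith), abs_of_nonneg hX]
        rw [abs_of_nonneg (by nlinarith)]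
        nlinarith
    · rcases hs with ⟨h3, h4⟩ | ⟨h3, h4⟩
      · have h3r : (x : ℝ) ≤ -1 := by exact_mod_cast h3
        have h4r : (1 : ℝ) ≤ y := by exact_mod_cast h4
        rw [abs_of_neg (by linarith), abs_of_nonpos hX]
        rw [abs_of_nonneg (by nlinarith)]
        nlinarith
      · have h3r : (1 : ℝ) ≤ x := by exact_mod_cast h3
        have h4r : (y : ℝ) ≤ -1 := by exact_mod_cast h4
        rw [abs_of_pos (by linarith), abs_of_nonpos hX]
        rw [abs_of_nonpos (by nlinarith)]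
        nlinarith
  set E := |(Q : ℝ) * θ - P|
  have hE : 0 ≤ E := abs_nonneg _
  have h1r : (Q : ℝ) ≤ n := by exact_mod_cast h1
  by_cases hcase : 2 * (n : ℝ) ≤ Q'
  · have h3 : (Q' : ℝ) / 2 ≤ |(x : ℝ)| * Q := by linarith
    have h4 : (Q' : ℝ) / 2 * E ≤ |(x : ℝ)| * Q * E := mul_le_mul_of_nonneg_right h3 hE
    have h5 : |(x : ℝ)| * Q * E ≤ n * (|(x : ℝ)| * E) := by
      have : 0 ≤ |(x : ℝ)| * E := by positivity
      nlinarith
    have h6 : n * (|(x : ℝ)| * E) ≤ n * |n * θ - m| := mul_le_mul_of_nonneg_left hlow hnr.le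
    linarith
  · push Not at hcase
    have h3 : E ≤ |(x : ℝ)| * E := by nlinarith
    have h4 : E ≤ |n * θ - m| := h3.trans hlow
    have h5 : (Q' : ℝ) * E ≤ 2 * n * |n * θ - m| := by
      calc (Q' : ℝ) * E ≤ (2 * n) * E := mul_le_mul_of_nonneg_right hcase.le hE
        _ ≤ 2 * n * |n * θ - m| := mul_le_mul_of_nonneg_left h4 (by positivity)
    linarith

end Pool.Agent.U367.NC
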