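import Mathlib

set_option autoImplicit false

namespace Pool.Agent.U367.NC

open Filter Topology Set

/-- in the complex plane the solutions of `α ^ n = β ^ m` with large `n` are dense in `|α| > 1` -/
theorem dense_complex (β : ℂ) (hβ : 1 < ‖β‖) (α₀ : ℂ) (h₀ : 1 < ‖α₀‖) (U : Set ℂ)
    (hU : U ∈ 𝓝 α₀) (k : ℕ) :
    ∃ α ∈ U, ∃ n m : ℕ, k ≤ n ∧ α ^ n = β ^ m := by
  have hα0 : α₀ ≠ 0 := by
    rintro rfl; simp at h₀; linarith
  have hβ0 : β ≠ 0 := by
    rintro rfl; simp at hβ; linarith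
  set L := Complex.log α₀ with hL
  set B := Complex.log β with hB
  have hLre : 0 < L.re := by
    rw [hL, Complex.log_re]; exact Real.log_pos h₀
  have hBre : 0 < B.re := by
    rw [hB, Complex.log_re]; exact Real.log_pos hβ
  set r := L.re / B.re with hr
  have hr0 : 0 < r := div_pos hLre hBre
  let m : ℕ → ℕ := fun n => ⌊(n : ℝ) * r⌋₊
  let j : ℕ → ℤ := fun n => ⌊((n : ℂ) * L - (m n : ℂ) * B).im / (2 * Real.pi)⌋
  let w : ℕ → ℂ := fun n => ((m n : ℂ) * B + 2 * Real.pi * Complex.I * (j n : ℂ)) / n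
  have hbound : ∀ n : ℕ, 0 < n → ‖w n - L‖ ≤ (B.re + 2 * Real.pi) / n := by
    intro n hn
    have hn' : (0 : ℝ) < n := by exact_mod_cast hn
    have hnc : (n : ℂ) ≠ 0 := by exact_mod_cast hn.ne'
    have e1 : w n - L = ((m n : ℂ) * B + 2 * Real.pi * Complex.I * (j n : ℂ) - n * L) / n := by
      simp only [w]; field_simp
    rw [e1, norm_div, Complex.norm_natCast]
    apply div_le_div_of_nonneg_right _ hn'.le
    refine (Complex.norm_le_abs_re_add_abs_im _).trans ?_
    apply add_le_add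
    · have : ((m n : ℂ) * B + 2 * Real.pi * Complex.I * (j n : ℂ) - n * L).re
          = (m n : ℝ) * B.re - n * L.re := by
        simp
      rw [this]
      have h1 : (m n : ℝ) ≤ n * r := Nat.floor_le (by positivity)
      have h2 : (n : ℝ) * r < m n + 1 := Nat.lt_floor_add_one _
      have h3 : (n : ℝ) * L.re = (n * r) * B.re := by
        rw [hr]; field_simp
      rw [h3, abs_le]
      constructor
      · nlinarith
      · nlinarith
    · have : ((m n : ℂ) * B + 2 * Real.pi * Complex.I * (j n : ℂ) - n * L).im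
          = 2 * Real.pi * (j n : ℝ) - ((n : ℂ) * L - (m n : ℂ) * B).im := by
        simp
        ring
      rw [this]
      set t := ((n : ℂ) * L - (m n : ℂ) * B).im
      have hpi := Real.pi_pos
      have h1 : (j n : ℝ) ≤ t / (2 * Real.pi) := Int.floor_le _
      have h2 : t / (2 * Real.pi) < j n + 1 := Int.lt_floor_add_one _
      have h3 : t = t / (2 * Real.pi) * (2 * Real.pi) := by field_simp
      rw [abs_le]
      constructor
      · nlinarith
      · nlinarith
  have hw : Tendsto w atTop (𝓝 L) := by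
    rw [tendsto_iff_norm_sub_tendsto_zero]
    have h0 : Tendsto (fun n : ℕ => (B.re + 2 * Real.pi) / (n : ℝ)) atTop (𝓝 0) :=
      tendsto_const_div_atTop_nhds_zero_nat _
    refine squeeze_zero' (Eventually.of_forall fun n => norm_nonneg _) ?_ h0
    filter_upwards [eventually_gt_atTop 0] with n hn using hbound n hn
  have hexp : Tendsto (fun n => Complex.exp (w n)) atTop (𝓝 α₀) := by
    have := (Complex.continuous_exp.tendsto L).comp hw
    rwa [hL, Complex.exp_log hα0] at this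
  have hev : ∀ᶠ n in atTop, Complex.exp (w n) ∈ U := hexp hU
  obtain ⟨n, hnU, hnk, hn0⟩ := (hev.and ((eventually_ge_atTop k).and (eventually_gt_atTop 0))).exists
  refine ⟨Complex.exp (w n), hnU, n, m n, hnk, ?_⟩
  have hnc : (n : ℂ) ≠ 0 := by exact_mod_cast hn0.ne'
  rw [← Complex.exp_nat_mul]
  have : (n : ℂ) * w n = (m n : ℂ) * B + (j n : ℂ) * (2 * Real.pi * Complex.I) := by
    simp only [w]; field_simp
  rw [this, Complex.exp_add, Complex.exp_int_mul_two_pi_mul_I, mul_one, Complex.exp_nat_mul, hB,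
    Complex.exp_log hβ0]

/-- on the real line the solutions of `a ^ n = b ^ m` with large `n` are dense in `a > 1` -/
theorem dense_real (b : ℝ) (hb : 1 < b) (a₀ : ℝ) (h₀ : 1 < a₀) (U : Set ℝ)
    (hU : U ∈ 𝓝 a₀) (k : ℕ) :
    ∃ a ∈ U, ∃ n m : ℕ, k ≤ n ∧ a ^ n = b ^ m := by
  have ha0 : 0 < a₀ := by linarith
  have hb0 : 0 < b := by linarith
  have hLre : 0 < Real.log a₀ := Real.log_pos h₀
  have hBre : 0 < Real.log b := Real.log_pos hb
  set r := Real.log a₀ / Real.log b with hr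
  have hr0 : 0 < r := div_pos hLre hBre
  let m : ℕ → ℕ := fun n => ⌊(n : ℝ) * r⌋₊
  let w : ℕ → ℝ := fun n => (m n : ℝ) / n
  have hw : Tendsto w atTop (𝓝 r) := by
    have h := tendsto_nat_floor_mul_div_atTop (R := ℝ) hr0.le
    have h2 := h.comp (tendsto_natCast_atTop_atTop (R := ℝ))
    refine h2.congr fun n => ?_
    simp [w, m, mul_comm]
  have hexp : Tendsto (fun n => Real.exp (w n * Real.log b)) atTop (𝓝 a₀) := by
    have h1 : Tendsto (fun n => w n * Real.log b) atTop (𝓝 (r * Real.log b)) := hw.mul_const _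
    have := (Real.continuous_exp.tendsto _).comp h1
    have e : r * Real.log b = Real.log a₀ := by rw [hr]; field_simp
    rwa [e, Real.exp_log ha0] at this
  have hev : ∀ᶠ n in atTop, Real.exp (w n * Real.log b) ∈ U := hexp hU
  obtain ⟨n, hnU, hnk, hn0⟩ := (hev.and ((eventually_ge_atTop k).and (eventually_gt_atTop 0))).exists
  refine ⟨_, hnU, n, m n, hnk, ?_⟩
  have hnc : (n : ℝ) ≠ 0 := by exact_mod_cast hn0.ne'
  rw [← Real.exp_nat_mul]
  have : (n : ℝ) * (w n * Real.log b) = (m n : ℝ) * Real.log b := by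
    simp only [w]; field_simp
  rw [this, Real.exp_nat_mul, Real.exp_log hb0]

/-- Countable sets are meagre in a space without isolated points. -/
theorem countable_compl_residual {X : Type*} [TopologicalSpace X] [T1Space X]
    [∀ x : X, NeBot (𝓝[≠] x)] {S : Set X} (hS : S.Countable) : Sᶜ ∈ residual X := by
  have h : Sᶜ = ⋂ x ∈ S, ({x}ᶜ : Set X) := by
    ext y; simp only [mem_compl_iff, mem_iInter, mem_singleton_iff]
    constructor
    · intro hy x hx hxy; exact hy (hxy ▸ hx)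
    · intro h hy; exact h y hy rfl
  rw [h]
  rw [countable_bInter_mem hS]
  intro x _
  exact residual_of_dense_open isOpen_compl_singleton (dense_compl_singleton x)

/-- multiplicative independence -/
def MultIndep {𝕜 : Type*} [NormedField 𝕜] (α β : 𝕜) : Prop :=
  ∀ p q : ℤ, α ^ p * β ^ q = 1 → p = 0 ∧ q = 0

theorem bad_countable {𝕜 : Type*} [NormedField 𝕜] (β : 𝕜) :
    {α : 𝕜 | ∃ p q : ℤ, p ≠ 0 ∧ α ^ p * β ^ q = 1}.Countable := by
  classical
  have h : {α : 𝕜 | ∃ p q : ℤ, p ≠ 0 ∧ α ^ p * β ^ q = 1} ⊆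
      ⋃ n : ℕ, ⋃ q : ℤ, {α : 𝕜 | 0 < n ∧ α ^ n = β ^ q} := by
    rintro α ⟨p, q, hp, h⟩
    simp only [mem_iUnion, mem_ofPred_eq]
    have hne : α ^ p ≠ 0 := by
      intro h0; rw [h0, zero_mul] at h; exact zero_ne_one h
    have hne2 : β ^ q ≠ 0 := by
      intro h0; rw [h0, mul_zero] at h; exact zero_ne_one h
    rcases lt_or_gt_of_ne hp with hneg | hpos
    · refine ⟨(-p).toNat, q, by omega, ?_⟩
      have e : ((-p).toNat : ℤ) = -p := Int.toNat_of_nonneg (by omega)
      rw [← zpow_natCast, e, zpow_neg]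
      rw [eq_inv_of_mul_eq_one_left h, inv_inv]
    · refine ⟨p.toNat, -q, by omega, ?_⟩
      have e : (p.toNat : ℤ) = p := Int.toNat_of_nonneg (by omega)
      rw [← zpow_natCast, e, zpow_neg]
      exact eq_inv_of_mul_eq_one_left h
  refine Countable.mono h ?_
  refine countable_iUnion fun n => countable_iUnion fun q => ?_
  by_cases hn : 0 < n
  · apply Finite.countable
    apply (Polynomial.nthRoots n (β ^ q)).toFinset.finite_toSet.subset
    rintro α ⟨_, hα⟩
    simp only [Finset.mem_coe, Multiset.mem_toFinset]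
    exact (Polynomial.mem_nthRoots hn).2 hα
  · simp [hn]

theorem multIndep_residual {𝕜 : Type*} [NontriviallyNormedField 𝕜] (β : 𝕜) (hβ : 1 < ‖β‖) :
    ∀ᶠ α in residual 𝕜, MultIndep α β := by
  filter_upwards [countable_compl_residual (bad_countable β)] with α hα p q h
  have hp : p = 0 := by
    by_contra hp
    exact hα ⟨p, q, hp, h⟩
  subst hp
  refine ⟨rfl, ?_⟩
  by_contra hq
  rw [zpow_zero, one_mul] at h
  have h1 : ‖β‖ ^ q = 1 := by rw [← norm_zpow, h, norm_one]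
  rcases lt_or_gt_of_ne hq with hq | hq
  · exact absurd h1 (ne_of_lt (zpow_lt_one_of_neg₀ hβ hq))
  · exact absurd h1 (ne_of_gt (one_lt_zpow₀ hβ hq))

/-- the general category argument -/
theorem category {𝕜 : Type*} [NontriviallyNormedField 𝕜] (β : 𝕜) (hβ : 1 < ‖β‖) (P : Set 𝕜)
    (hPo : IsOpen P)
    (hd : ∀ α₀ ∈ P, ∀ U ∈ 𝓝 α₀, ∀ k : ℕ, ∃ α ∈ U, ∃ n m : ℕ, k ≤ n ∧ α ^ n = β ^ m)
    (φ : ℕ → ℝ) (hφ : ∀ n, 0 < φ n) :
    ∀ᶠ α in residual 𝕜, α ∈ P → MultIndep α β ∧
      {p : ℕ × ℕ | 0 < ‖α ^ p.1 - β ^ p.2‖ ∧ ‖α ^ p.1 - β ^ p.2‖ < φ (p.1 + p.2)}.Infinite := by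
  let O : ℕ → Set 𝕜 := fun k => P ∩ ⋃ n : ℕ, ⋃ m : ℕ, ⋃ _ : k ≤ n,
    {α | ‖α ^ n - β ^ m‖ < φ (n + m)}
  have hO : ∀ k, IsOpen (O k) := by
    intro k
    refine hPo.inter ?_
    refine isOpen_iUnion fun n => isOpen_iUnion fun m => isOpen_iUnion fun _ => ?_
    exact isOpen_lt (by fun_prop) continuous_const
  have hcl : ∀ k, P ⊆ closure (O k) := by
    intro k α₀ h₀
    rw [mem_closure_iff_nhds]
    intro U hU
    obtain ⟨α, hα, n, m, hn, e⟩ := hd α₀ h₀ (U ∩ P) (inter_mem hU (hPo.mem_nhds h₀)) k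
    refine ⟨α, hα.1, hα.2, ?_⟩
    simp only [mem_iUnion, mem_ofPred_eq]
    exact ⟨n, m, hn, by rw [e, sub_self, norm_zero]; exact hφ _⟩
  have hres : ∀ k, ∀ᶠ α in residual 𝕜, α ∈ P → α ∈ O k := by
    intro k
    have hdense : Dense (O k ∪ (closure (O k))ᶜ) := by
      intro x
      by_cases hx : x ∈ closure (O k)
      · exact closure_mono subset_union_left hx
      · exact subset_closure (Or.inr hx)
    have := residual_of_dense_open ((hO k).union isClosed_closure.isOpen_compl) hdense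
    filter_upwards [this] with α hα hP
    rcases hα with h | h
    · exact h
    · exact absurd (hcl k hP) h
  have hall := eventually_countable_forall.2 hres
  filter_upwards [hall, multIndep_residual β hβ] with α hα hind hP
  refine ⟨hind, ?_⟩
  intro hfin
  -- bound the first coordinate
  obtain ⟨K, hK⟩ := (hfin.image Prod.fst).bddAbove
  have h := hα (K + 1) hP
  simp only [O, mem_inter_iff, mem_iUnion, mem_ofPred_eq] at h
  obtain ⟨_, n, m, hn, hlt⟩ := h
  have hmem : (n, m) ∈ {p : ℕ × ℕ | 0 < ‖α ^ p.1 - β ^ p.2‖ ∧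
      ‖α ^ p.1 - β ^ p.2‖ < φ (p.1 + p.2)} := by
    refine ⟨?_, hlt⟩
    rw [norm_pos_iff, sub_ne_zero]
    intro he
    have hβ0 : β ≠ 0 := by rintro rfl; simp at hβ; linarith
    have := hind n (-m) (by
      rw [zpow_natCast, zpow_neg, zpow_natCast]
      simp only at he
      rw [he]; exact mul_inv_cancel₀ (pow_ne_zero _ hβ0))
    have h0 : (n : ℤ) = 0 := this.1
    omega
  have := hK (mem_image_of_mem Prod.fst hmem)
  simp only at this
  omega

theorem category_complex (β : ℂ) (hβ : 1 < ‖β‖) (φ : ℕ → ℝ) (hφ : ∀ n, 0 < φ n) :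
    ∀ᶠ α in residual ℂ, 1 < ‖α‖ → MultIndep α β ∧
      {p : ℕ × ℕ | 0 < ‖α ^ p.1 - β ^ p.2‖ ∧ ‖α ^ p.1 - β ^ p.2‖ < φ (p.1 + p.2)}.Infinite :=
  category β hβ {α | 1 < ‖α‖} (isOpen_lt continuous_const continuous_norm)
    (fun α₀ h₀ U hU k => dense_complex β hβ α₀ h₀ U hU k) φ hφ

theorem category_real (b : ℝ) (hb : 1 < b) (φ : ℕ → ℝ) (hφ : ∀ n, 0 < φ n) :
    ∀ᶠ a in residual ℝ, 1 < a → MultIndep a b ∧
      {p : ℕ × ℕ | 0 < |a ^ p.1 - b ^ p.2| ∧ |a ^ p.1 - b ^ p.2| < φ (p.1 + p.2)}.Infinite := by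
  have hb' : 1 < ‖b‖ := by rw [Real.norm_eq_abs]; exact lt_of_lt_of_le hb (le_abs_self b)
  exact category b hb' {a | 1 < a} isOpen_Ioi
    (fun α₀ h₀ U hU k => dense_real b hb α₀ h₀ U hU k) φ hφ

end Pool.Agent.U367.NC
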