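import Pool.Agent.U367.NC.Exist
import Pool.Agent.H491R3.PE.Near

set_option autoImplicit false

namespace Pool.Agent.U367.NC

open Filter Topology Set Real Pool.Agent.H491R3.PE

theorem levels (G : ℕ → ℕ) (hG : Monotone G) : ∃ ℓ : ℕ → ℕ, (∀ i, 1 ≤ ℓ i) ∧
    (∀ i, ℓ i ≤ 2 ^ (i + 1)) ∧ ∀ i x, 1 ≤ x → (ℓ i ≤ x ↔ i < G x + Nat.log 2 x) := by
  classical
  have hex : ∀ i, ∃ x, 1 ≤ x ∧ i < G x + Nat.log 2 x := fun i =>
    ⟨2 ^ (i+1), Nat.one_le_two_pow, by rw [Nat.log_pow (by norm_num)]; omega⟩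
  refine ⟨fun i => Nat.find (hex i), fun i => (Nat.find_spec (hex i)).1, fun i => ?_,
    fun i x hx => ?_⟩
  · exact Nat.find_min' (hex i) ⟨Nat.one_le_two_pow, by rw [Nat.log_pow (by norm_num)]; omega⟩
  · constructor
    · intro h
      have h1 := (Nat.find_spec (hex i)).2
      exact lt_of_lt_of_le h1 (Nat.add_le_add (hG h) (Nat.log_mono_right h))
    · intro h
      exact Nat.find_min' (hex i) ⟨hx, h⟩

theorem T_finite {a b : ℝ} (ha : 1 < a) (hb : 1 < b) (n₁ : ℕ) :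
    {p : ℕ × ℕ | p ∈ SS a b ∧ p.1 < n₁}.Finite := by
  obtain ⟨M, hM⟩ := pow_unbounded_of_one_lt (2 * a ^ n₁) hb
  refine ((Set.finite_Iio n₁).prod (Set.finite_Iio M)).subset ?_
  rintro ⟨n, m⟩ ⟨⟨_, h⟩, hn⟩
  simp only at h hn
  refine ⟨hn, ?_⟩
  show m < M
  by_contra hm
  push Not at hm
  have h1 : b ^ M ≤ b ^ m := pow_le_pow_right₀ hb.le hm
  have h2 : a ^ n ≤ a ^ n₁ := pow_le_pow_right₀ ha.le hn.le
  have h3 : 1 ≤ a ^ n := one_le_pow₀ ha.le
  have h4 : a ^ n < b ^ m - a ^ n := by linarith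
  have h5 : a ^ n < |a ^ n - b ^ m| := by rw [abs_sub_comm]; exact lt_of_lt_of_le h4 (le_abs_self _)
  have h6 : a ^ n ≤ |a ^ n - b ^ m| ^ 2 := by
    nlinarith
  linarith

theorem excess {b : ℝ} (hb : 1 < b) (G : ℕ → ℕ) (hG : Monotone G) {u v : ℝ} (hu : 1 ≤ u)
    (huv : u < v) :
    ∃ a : ℝ, u < a ∧ a < v ∧ (∀ p q : ℤ, a ^ p * b ^ q = 1 → p = 0 ∧ q = 0) ∧
      (∀ x : ℝ, (NS a b x).Finite) ∧ ∃ C : ℝ, ∀ x : ℕ, 2 ≤ x →
        |((NS a b x).ncard : ℝ) - log x ^ 2 / (log a * log b) - G x| ≤ C * log x := by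
  have hb0 : 0 < b := by linarith
  have hB : 0 < log b := log_pos hb
  have hu0 : 0 < u := by linarith
  obtain ⟨ℓ, hℓ1, hℓ2, hℓ⟩ := levels G hG
  obtain ⟨θ, hθ0, hθ1, hirr, P, Q, hmono, hcop, hlev, hnear⟩ := exists_theta hb ℓ hℓ1 hℓ2
    (θ0 := log u / log b) (θ1 := log v / log b) (div_nonneg (log_nonneg hu) hB.le)
    (div_lt_div_of_pos_right (log_lt_log hu0 huv) hB)
  obtain ⟨a, haθ⟩ : ∃ a : ℝ, a = b ^ θ := ⟨_, rfl⟩
  have hloga : log a = θ * log b := by rw [haθ, Real.log_rpow hb0]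
  have ha0 : 0 < a := by rw [haθ]; positivity
  rw [div_lt_iff₀ hB, ← hloga] at hθ0
  rw [lt_div_iff₀ hB, ← hloga] at hθ1
  have hua : u < a := (Real.log_lt_log_iff hu0 ha0).1 hθ0
  have hav : a < v := (Real.log_lt_log_iff ha0 (by linarith)).1 hθ1
  have ha : 1 < a := lt_of_le_of_lt hu hua
  have hA : 0 < log a := log_pos ha
  have hratio : log a / log b = θ := by rw [hloga]; field_simp
  have hpow : ∀ n : ℕ, b ^ ((n : ℝ) * θ) = a ^ n := by
    intro n; rw [haθ, mul_comm, Real.rpow_mul_natCast hb0.le]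
  simp only [hpow] at hlev
  -- independence
  have hind : ∀ p q : ℤ, a ^ p * b ^ q = 1 → p = 0 ∧ q = 0 := by
    intro p q h
    have h1 : (p : ℝ) * log a + q * log b = 0 := by
      have := congrArg log h
      rw [Real.log_mul (zpow_ne_zero _ ha0.ne') (zpow_ne_zero _ hb0.ne'), Real.log_zpow,
        Real.log_zpow, Real.log_one] at this
      exact this
    rw [hloga] at h1
    have h2 : (p : ℝ) * θ + q = 0 := by
      have : ((p : ℝ) * θ + q) * log b = 0 := by linarith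
      rcases mul_eq_zero.1 this with h | h
      · exact h
      · exact absurd h hB.ne'
    have hp : p = 0 := by
      by_contra hp
      have hpr : (p : ℝ) ≠ 0 := by exact_mod_cast hp
      apply hirr
      refine ⟨-(q : ℚ) / p, ?_⟩
      push_cast
      field_simp
      linarith
    subst hp
    refine ⟨rfl, ?_⟩
    simpa using h2
  -- large near misses
  have hs := sqrt_gt ha
  obtain ⟨n₂, hn₂⟩ := pow_unbounded_of_one_lt 2 hs
  have hev := (tendsto_pow_const_div_const_pow_of_one_lt 1 hs).eventually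
    (gt_mem_nhds (show (0 : ℝ) < log b / 8 by positivity))
  obtain ⟨n₃, hn₃⟩ := eventually_atTop.1 hev
  set n₁ := max (max n₂ n₃) (Q 0) with hn₁
  have hbig : ∀ p ∈ SS a b, n₁ ≤ p.1 → ∃ i, p = (Q i, P i) := by
    rintro ⟨n, m⟩ hp hn
    simp only at hn
    have h2 : 2 < √a ^ n := lt_of_lt_of_le hn₂ (pow_le_pow_right₀ hs.le
      ((le_max_left _ _).trans ((le_max_left _ _).trans hn)))
    have h3 : (n : ℝ) ^ 1 / √a ^ n < log b / 8 := hn₃ n
      ((le_max_right _ _).trans ((le_max_left _ _).trans hn))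
    have hS : 0 < √a ^ n := by positivity
    rw [pow_one, div_lt_iff₀ hS] at h3
    have h4 := approxS ha hb hp h2
    simp only at h4
    apply hnear n m hp.1 ((le_max_right _ _).trans hn)
    have h5 : |(n : ℝ) * log a - m * log b| = |(n : ℝ) * θ - m| * log b := by
      rw [hloga, ← abs_of_pos hB, ← abs_mul, abs_of_pos hB]; congr 1; ring
    rw [h5, le_div_iff₀ hS] at h4
    have h6 : 0 ≤ |(n : ℝ) * θ - m| := abs_nonneg _
    have h7 : (4 * n * |(n : ℝ) * θ - m|) * (log b * √a ^ n) < 1 * (log b * √a ^ n) := by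
      calc (4 * n * |(n : ℝ) * θ - m|) * (log b * √a ^ n)
          = 4 * n * (|(n : ℝ) * θ - m| * log b * √a ^ n) := by ring
        _ ≤ 4 * n * 2 := mul_le_mul_of_nonneg_left h4 (by positivity)
        _ < 1 * (log b * √a ^ n) := by linarith
    exact lt_of_mul_lt_mul_right h7 (by positivity)
  have hTfin := T_finite ha hb n₁
  set T := {p : ℕ × ℕ | p ∈ SS a b ∧ p.1 < n₁} with hT
  let f : ℕ → ℕ × ℕ := fun i => (Q i, P i)
  have hf : Function.Injective f := fun i j h => hmono.injective (congrArg Prod.fst h)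
  have hmem : ∀ i, f i ∈ SS a b := by
    intro i
    refine ⟨hcop i, ?_⟩
    obtain ⟨_, h2, h3⟩ := hlev i
    exact lt_of_le_of_lt (pow_le_pow_left₀ (abs_nonneg _) h2 2) h3
  have hlow : ∀ x : ℕ, 1 ≤ x → f '' Set.Iio (G x + Nat.log 2 x) ⊆ SX a b x := by
    rintro x hx _ ⟨i, hi, rfl⟩
    refine ⟨hmem i, (hlev i).2.1.trans ?_⟩
    exact_mod_cast (hℓ i x hx).2 hi
  have hupp : ∀ x : ℕ, 1 ≤ x → SX a b x ⊆ f '' Set.Iio (G x + Nat.log 2 x) ∪ T := by
    rintro x hx p ⟨hp, hpx⟩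
    by_cases hn : n₁ ≤ p.1
    · left
      obtain ⟨i, rfl⟩ := hbig p hp hn
      refine ⟨i, ?_, rfl⟩
      have h1 := (hlev i).1
      simp only at hpx
      have h2 : (ℓ i : ℝ) - 1 < x := lt_of_lt_of_le h1 hpx
      have h3 : ℓ i < x + 1 := by
        have : (ℓ i : ℝ) < x + 1 := by linarith
        exact_mod_cast this
      exact (hℓ i x hx).1 (by omega)
    · right; exact ⟨hp, by omega⟩
  have hcard : ∀ x : ℕ, (f '' Set.Iio (G x + Nat.log 2 x)).ncard = G x + Nat.log 2 x := by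
    intro x
    rw [Set.ncard_image_of_injective _ hf, ← Nat.card_coe_set_eq]
    simp
  have hfinS : ∀ x : ℕ, (f '' Set.Iio (G x + Nat.log 2 x)).Finite := fun x =>
    (Set.finite_Iio _).image _
  have hSXfin : ∀ x : ℝ, (SX a b x).Finite := by
    intro x
    obtain ⟨N, hN⟩ := exists_nat_ge (max x 1)
    have hN1 : 1 ≤ N := by exact_mod_cast (le_max_right x 1).trans hN
    refine ((hfinS N).union hTfin).subset (Subset.trans ?_ (hupp N hN1))
    rintro p ⟨hp, hpx⟩
    exact ⟨hp, hpx.trans ((le_max_left _ _).trans hN)⟩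
  obtain ⟨C₀, hC₀⟩ := countS ha hb (by rw [hratio]; exact hirr) hSXfin
  refine ⟨a, hua, hav, hind, fun x => ?_, C₀ + (1 + T.ncard) / log 2, fun x hx => ?_⟩
  · refine (hC₀ (max x 2) (le_max_right _ _)).1.subset ?_
    intro p hp
    exact le_trans hp (le_max_left x 2)
  · have hx2 : (2 : ℝ) ≤ x := by exact_mod_cast hx
    have h1 := (hC₀ x hx2).2
    have hx1 : 1 ≤ x := by omega
    have h2 : G x + Nat.log 2 x ≤ (SX a b x).ncard := by
      rw [← hcard x]
      exact Set.ncard_le_ncard (hlow x hx1) (hSXfin x)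
    have h3 : (SX a b x).ncard ≤ G x + Nat.log 2 x + T.ncard := by
      rw [← hcard x]
      exact (Set.ncard_le_ncard (hupp x hx1) ((hfinS x).union hTfin)).trans (Set.ncard_union_le _ _)
    have h2r : (G x : ℝ) + Nat.log 2 x ≤ (SX a b x).ncard := by exact_mod_cast h2
    have h3r : ((SX a b x).ncard : ℝ) ≤ G x + Nat.log 2 x + T.ncard := by exact_mod_cast h3
    have hlog2 : 0 < log 2 := log_pos (by norm_num)
    have h4 : (Nat.log 2 x : ℝ) ≤ log x / log 2 := by
      have := Real.natLog_le_logb x 2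
      rwa [Real.logb, Nat.cast_ofNat] at this
    have h5 : (0 : ℝ) ≤ Nat.log 2 x := Nat.cast_nonneg _
    have h6 : 1 ≤ log x / log 2 := by
      rw [le_div_iff₀ hlog2, one_mul]
      exact Real.log_le_log (by norm_num) hx2
    have h7 : (T.ncard : ℝ) ≤ T.ncard * (log x / log 2) :=
      le_mul_of_one_le_right (Nat.cast_nonneg _) h6
    have h8 : (C₀ + (1 + T.ncard) / log 2) * log x =
        C₀ * log x + log x / log 2 + T.ncard * (log x / log 2) := by ring
    rw [h8]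
    rw [abs_le] at h1 ⊢
    constructor <;> linarith [h1.1, h1.2]

end Pool.Agent.U367.NC
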