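import Pool.Agent.U367.NC.Theta

set_option autoImplicit false

namespace Pool.Agent.U367.NC

open Filter Topology Set Real

theorem start_pair (θ0 θ1 : ℝ) (h0 : 0 ≤ θ0) (h01 : θ0 < θ1) :
    ∃ p0 q0 : ℕ, 0 < p0 ∧ 0 < q0 ∧ θ0 < (p0 : ℝ) / q0 ∧ (p0 : ℝ) / q0 < θ1 ∧
      ∀ R : ℕ, ∃ p1 q1 : ℕ, R ≤ q1 ∧ q0 < q1 ∧ p1 * q0 = p0 * q1 + 1 ∧ (p1 : ℝ) / q1 < θ1 := by
  obtain ⟨r, hr0, hr1⟩ := exists_rat_btwn h01
  have hr : 0 < r := by
    have : (0 : ℝ) < r := lt_of_le_of_lt h0 hr0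
    exact_mod_cast this
  have hnum : 0 < r.num := Rat.num_pos.2 hr
  obtain ⟨p0, hp0⟩ : ∃ p0 : ℕ, (p0 : ℤ) = r.num := ⟨r.num.toNat, Int.toNat_of_nonneg hnum.le⟩
  have hp0pos : 0 < p0 := by omega
  have hrr : (r : ℝ) = (p0 : ℝ) / r.den := by
    rw [Rat.cast_def, ← hp0, Int.cast_natCast]
  have hq0pos : 0 < r.den := r.den_pos
  have hcop : IsCoprime (r.den : ℤ) (p0 : ℤ) := by
    rw [hp0]
    have := r.reduced
    rw [Int.isCoprime_iff_gcd_eq_one, Int.gcd_comm]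
    simpa [Int.gcd] using this
  refine ⟨p0, r.den, hp0pos, hq0pos, hrr ▸ hr0, hrr ▸ hr1, fun R => ?_⟩
  obtain ⟨u, v, huv⟩ := hcop
  obtain ⟨N, hN⟩ := exists_nat_gt (1 / (θ1 - (p0 : ℝ) / r.den))
  have hgap : 0 < θ1 - (p0 : ℝ) / r.den := by rw [← hrr]; linarith
  set k : ℕ := v.natAbs + R + r.den + 1 + N with hk
  have hq0z : (1 : ℤ) ≤ r.den := by exact_mod_cast hq0pos
  have hq1 : (R : ℤ) + r.den + 1 + N ≤ -v + k * r.den := by
    have h1 : (k : ℤ) ≤ k * r.den := le_mul_of_one_le_right (by positivity) hq0z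
    have h2 : (k : ℤ) = |v| + R + r.den + 1 + N := by rw [hk]; push_cast; rfl
    have h3 := le_abs_self v
    linarith
  obtain ⟨q1, hq1'⟩ : ∃ q1 : ℕ, (q1 : ℤ) = -v + k * r.den :=
    ⟨(-v + k * r.den).toNat, Int.toNat_of_nonneg (by omega)⟩
  have hdet : (u + k * p0) * r.den = (p0 : ℤ) * q1 + 1 := by
    rw [hq1']
    linear_combination huv
  have hp1pos : 0 ≤ u + k * (p0 : ℤ) := by
    by_contra hneg
    push Not at hneg
    have h1 : (u + k * p0) * (r.den : ℤ) ≤ 0 := mul_nonpos_of_nonpos_of_nonneg hneg.le (by positivity)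
    have h2 : 0 ≤ (p0 : ℤ) * q1 := by positivity
    omega
  obtain ⟨p1, hp1'⟩ : ∃ p1 : ℕ, (p1 : ℤ) = u + k * p0 :=
    ⟨(u + k * p0).toNat, Int.toNat_of_nonneg hp1pos⟩
  have hdet' : p1 * r.den = p0 * q1 + 1 := by
    rw [← hp1'] at hdet
    exact_mod_cast hdet
  refine ⟨p1, q1, by omega, by omega, hdet', ?_⟩
  have hq1pos : 0 < q1 := by omega
  have hq1r : (0 : ℝ) < q1 := by exact_mod_cast hq1pos
  have hq0r : (1 : ℝ) ≤ r.den := by exact_mod_cast hq0pos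
  have hNq : (N : ℝ) ≤ q1 := by
    have : N ≤ q1 := by omega
    exact_mod_cast this
  have hd : (p1 : ℝ) * r.den = p0 * q1 + 1 := by exact_mod_cast hdet'
  have h1 : 1 < (θ1 - (p0 : ℝ) / r.den) * q1 := by
    have : 1 / (θ1 - (p0 : ℝ) / r.den) < q1 := lt_of_lt_of_le hN hNq
    rwa [div_lt_iff₀ hgap, mul_comm] at this
  rw [div_lt_iff₀ hq1r]
  have h2 : (p1 : ℝ) = (p0 * q1 + 1) / r.den := by
    rw [eq_div_iff (by positivity)]; exact hd
  rw [h2, div_lt_iff₀ (by positivity)]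
  have h3 : (p0 : ℝ) = (p0 / r.den) * r.den := by field_simp
  have h4 : 1 < (θ1 - (p0 : ℝ) / r.den) * q1 * r.den := by
    have : 0 < (θ1 - (p0 : ℝ) / r.den) * q1 := by positivity
    nlinarith
  nlinarith

theorem growth {b κ K B : ℝ} (hb : 1 < b) (hκ : 0 < κ) (hK : 0 < K) (hB : 0 < B) :
    ∃ R : ℕ, ∀ q : ℕ, R ≤ q → 4 * K * (q : ℝ) ^ 3 ≤ b ^ (κ * q) * B := by
  have hb0 : 0 < b := by linarith
  have h1 : 1 < b ^ κ := Real.one_lt_rpow hb hκ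
  have h := tendsto_pow_const_div_const_pow_of_one_lt 3 h1
  have hev := (h.eventually (gt_mem_nhds (show (0 : ℝ) < B / (4 * K) by positivity)))
  obtain ⟨R, hR⟩ := eventually_atTop.1 hev
  refine ⟨R, fun q hq => ?_⟩
  have h2 := hR q hq
  have h3 : 0 < (b ^ κ) ^ q := by positivity
  rw [div_lt_div_iff₀ h3 (by positivity)] at h2
  rw [Real.rpow_mul_natCast hb0.le]
  linarith

theorem exists_theta {b : ℝ} (hb : 1 < b) (ℓ : ℕ → ℕ) (hℓ1 : ∀ i, 1 ≤ ℓ i)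
    (hℓ2 : ∀ i, ℓ i ≤ 2 ^ (i + 1)) {θ0 θ1 : ℝ} (h0 : 0 ≤ θ0) (h01 : θ0 < θ1) :
    ∃ θ : ℝ, θ0 < θ ∧ θ < θ1 ∧ Irrational θ ∧ ∃ P Q : ℕ → ℕ, StrictMono Q ∧
      (∀ i, (Q i).Coprime (P i)) ∧
      (∀ i, (ℓ i : ℝ) - 1 < |b ^ ((Q i : ℝ) * θ) - b ^ P i| ∧
        |b ^ ((Q i : ℝ) * θ) - b ^ P i| ≤ ℓ i ∧ (ℓ i : ℝ) ^ 2 < b ^ ((Q i : ℝ) * θ)) ∧
      ∀ n m : ℕ, n.Coprime m → Q 0 ≤ n → 4 * n * |n * θ - m| < 1 → ∃ i, (n, m) = (Q i, P i) := by
  have hb0 : 0 < b := by linarith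
  have hB : 0 < log b := log_pos hb
  set B := log b with hBdef
  set K := 6 + 2 * B with hK
  have hK0 : 0 < K := by positivity
  obtain ⟨p0, q0, hp0, hq0, hl, hr, hnext⟩ := start_pair θ0 θ1 h0 h01
  have hp0r : (0 : ℝ) < p0 := by exact_mod_cast hp0
  have hq0r : (0 : ℝ) < q0 := by exact_mod_cast hq0
  obtain ⟨R, hR⟩ := growth (K := K) (B := B) hb (show 0 < (p0 : ℝ) / q0 by positivity) hK0 hB
  obtain ⟨p1, q1, hRq, hq01, hdet, hr1⟩ := hnext (max R 1)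
  obtain ⟨P, Q, hP0, hQ0, hP1, hQ1, hrec⟩ := exists_conv
    (fun i p q => ⌊b ^ p * B / (((ℓ i : ℝ) - 1 / 2) * q)⌋₊) p0 q0 p1 q1
  set a : ℕ → ℕ := fun i => ⌊b ^ P (i+1) * B / (((ℓ i : ℝ) - 1 / 2) * Q (i+1))⌋₊ with ha
  have hP : ∀ i, P (i+2) = a i * P (i+1) + P i := fun i => (hrec i).1
  have hQ : ∀ i, Q (i+2) = a i * Q (i+1) + Q i := fun i => (hrec i).2
  -- fractions stay above p0 / q0
  have hC1 : ∀ i, p0 * Q i ≤ P i * q0 ∧ p0 * Q (i+1) ≤ P (i+1) * q0 := by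
    intro i
    induction i with
    | zero => rw [hP0, hQ0, hP1, hQ1]; exact ⟨le_rfl, by omega⟩
    | succ i ih =>
      refine ⟨ih.2, ?_⟩
      rw [hP i, hQ i]
      calc p0 * (a i * Q (i+1) + Q i) = a i * (p0 * Q (i+1)) + p0 * Q i := by ring
        _ ≤ a i * (P (i+1) * q0) + P i * q0 := Nat.add_le_add (Nat.mul_le_mul_left _ ih.2) ih.1
        _ = (a i * P (i+1) + P i) * q0 := by ring
  have hH : ∀ i, 2 ^ i ≤ Q (i+1) → R ≤ Q (i+1) → K * (ℓ i : ℝ) ^ 2 * Q (i+1) ≤ b ^ P (i+1) * B := by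
    intro i h2 hR'
    have h3 := hR _ hR'
    have h4 : (p0 : ℝ) / q0 * Q (i+1) ≤ P (i+1) := by
      rw [div_mul_eq_mul_div, div_le_iff₀ hq0r]
      exact_mod_cast (hC1 i).2
    have h5 : b ^ ((p0 : ℝ) / q0 * Q (i+1)) ≤ b ^ P (i+1) := by
      rw [← Real.rpow_natCast]
      exact Real.rpow_le_rpow_of_exponent_le hb.le h4
    have h6 : (ℓ i : ℝ) ≤ 2 * Q (i+1) := by
      have : ℓ i ≤ 2 * Q (i+1) := by
        calc ℓ i ≤ 2 ^ (i+1) := hℓ2 i
          _ = 2 * 2 ^ i := by ring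
          _ ≤ 2 * Q (i+1) := by omega
      exact_mod_cast this
    have h7 : (ℓ i : ℝ) ^ 2 ≤ (2 * Q (i+1)) ^ 2 := pow_le_pow_left₀ (Nat.cast_nonneg _) h6 2
    calc K * (ℓ i : ℝ) ^ 2 * Q (i+1) ≤ K * (2 * Q (i+1)) ^ 2 * Q (i+1) := by gcongr
      _ = 4 * K * (Q (i+1) : ℝ) ^ 3 := by ring
      _ ≤ b ^ ((p0 : ℝ) / q0 * Q (i+1)) * B := h3
      _ ≤ b ^ P (i+1) * B := mul_le_mul_of_nonneg_right h5 hB.le
  have haH : ∀ i, 0 < Q (i+1) → K * (ℓ i : ℝ) ^ 2 * Q (i+1) ≤ b ^ P (i+1) * B → 2 ≤ a i := by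
    intro i hq h
    rw [ha]
    apply Nat.le_floor
    have hqr : (0 : ℝ) < Q (i+1) := by exact_mod_cast hq
    have hlr : (1 : ℝ) ≤ ℓ i := by exact_mod_cast hℓ1 i
    have hden : 0 < ((ℓ i : ℝ) - 1 / 2) * Q (i+1) := mul_pos (by linarith) hqr
    rw [le_div_iff₀ hden]
    refine le_trans ?_ h
    push_cast
    have h1 : ((ℓ i : ℝ) - 1 / 2) ≤ (ℓ i : ℝ) ^ 2 := by nlinarith
    have h2 : (2 : ℝ) ≤ K := by rw [hK]; linarith
    calc (2 : ℝ) * (((ℓ i : ℝ) - 1 / 2) * Q (i+1)) ≤ K * ((ℓ i : ℝ) ^ 2 * Q (i+1)) := by gcongr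
      _ = K * (ℓ i : ℝ) ^ 2 * Q (i+1) := by ring
  have hS : ∀ i, 2 ^ i ≤ Q (i+1) ∧ R ≤ Q (i+1) ∧ 0 < Q (i+1) := by
    intro i
    induction i with
    | zero =>
      rw [hQ1]
      have h1 : 1 ≤ q1 := le_trans (le_max_right _ _) hRq
      exact ⟨by simpa using h1, le_trans (le_max_left _ _) hRq, h1⟩
    | succ i ih =>
      obtain ⟨h1, h2, h3⟩ := ih
      have h4 := haH i h3 (hH i h1 h2)
      have h5 : 2 * Q (i+1) ≤ Q (i+1+1) := by
        rw [hQ i]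
        exact le_trans (Nat.mul_le_mul_right _ h4) (Nat.le_add_right _ _)
      refine ⟨?_, by omega, by omega⟩
      rw [pow_succ]; omega
  have hHi : ∀ i, K * (ℓ i : ℝ) ^ 2 * Q (i+1) ≤ b ^ P (i+1) * B := fun i =>
    hH i (hS i).1 (hS i).2.1
  have ha1 : ∀ i, 1 ≤ a i := fun i => le_trans (by norm_num) (haH i (hS i).2.2 (hHi i))
  have hpos := qpos hQ ha1 (by rw [hQ0]; exact hq0) (by rw [hQ0, hQ1]; exact hq01)
  have hd := det hP hQ (by rw [hP0, hQ0, hP1, hQ1]; exact hdet)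
  have hdabs : ∀ i, |(P (i+1) : ℤ) * Q i - P i * Q (i+1)| = 1 := by
    intro i; rw [hd i]; simp
  obtain ⟨θ, hθ, hθI⟩ := exists_limit hP hQ (fun i => (hpos i).1)
  have hsum := fun i => sum_one (hdabs i) (hθ i)
  have hlev := fun i => level (θ := θ) (q := Q (i+1)) (qm := Q i) (q' := Q (i+2)) (q'' := Q (i+3))
    (p := P (i+1)) (A := a i) (l := ℓ i) (e' := |(Q (i+2) : ℝ) * θ - P (i+2)|) hb rfl (hℓ1 i)
    (hpos (i+1)).1 (hpos i).2.le (hQ i) (hpos (i+2)).2.le (hHi i) (hsum (i+1))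
    (by have := hsum (i+2)
        have h2 : 0 ≤ (Q (i+2) : ℝ) * |(Q (i+3) : ℝ) * θ - P (i+3)| := by positivity
        linarith) (abs_nonneg _)
  have hbd : (p0 : ℝ) / q0 ≤ (p1 : ℝ) / q1 := by
    have hq1r : (0 : ℝ) < q1 := by
      have : 0 < q1 := by omega
      exact_mod_cast this
    rw [div_le_div_iff₀ hq0r hq1r]
    have : p0 * q1 ≤ p1 * q0 := by omega
    exact_mod_cast this
  rw [hP0, hQ0, hP1, hQ1, uIcc_of_le hbd] at hθI
  have hmono : StrictMono Q := strictMono_nat_of_lt_succ fun i => (hpos i).2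
  refine ⟨θ, lt_of_lt_of_le hl hθI.1, lt_of_le_of_lt hθI.2 hr1, ?_, fun i => P (i+1),
    fun i => Q (i+1), fun i j hij => hmono (by omega), ?_, ?_, ?_⟩
  · -- irrational
    rintro ⟨r, hr⟩
    have hden : (0 : ℝ) < r.den := by exact_mod_cast r.den_pos
    have key : ∀ i, Q (i+2) ≤ r.den := by
      intro i
      have h3 := (hlev i).2.2.1
      have hQp : (0 : ℝ) < Q (i+2) := by exact_mod_cast (hpos (i+2)).1
      have hepos : 0 < |(Q (i+1) : ℝ) * θ - P (i+1)| := by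
        by_contra h
        push Not at h
        have : 2 * (Q (i+2) : ℝ) * |(Q (i+1) : ℝ) * θ - P (i+1)| ≤ 0 :=
          mul_nonpos_of_nonneg_of_nonpos (by positivity) h
        linarith
      have hint : (r.den : ℝ) * ((Q (i+1) : ℝ) * θ - P (i+1)) =
          ((Q (i+1) * r.num - P (i+1) * r.den : ℤ) : ℝ) := by
        have h5 : (r : ℝ) * r.den = r.num := by
          have h6 : r * r.den = r.num := Rat.mul_den_eq_num r
          exact_mod_cast h6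
        rw [← hr]; push_cast
        linear_combination (Q (i+1) : ℝ) * h5
      have h7 : (1 : ℝ) ≤ |(r.den : ℝ) * ((Q (i+1) : ℝ) * θ - P (i+1))| := by
        have hne : (Q (i+1) * r.num - P (i+1) * r.den : ℤ) ≠ 0 := by
          intro h0
          rw [h0, Int.cast_zero] at hint
          rcases mul_eq_zero.1 hint with h | h
          · exact hden.ne' h
          · rw [h, abs_zero] at hepos; exact lt_irrefl _ hepos
        rw [hint]
        exact_mod_cast Int.one_le_abs hne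
      rw [abs_mul, abs_of_pos hden] at h7
      have h8 := hsum (i+1)
      have h9 : 0 ≤ (Q (i+1) : ℝ) * |(Q (i+2) : ℝ) * θ - P (i+2)| := by positivity
      have h10 : (Q (i+2) : ℝ) * |(Q (i+1) : ℝ) * θ - P (i+1)| ≤ 1 := by linarith
      have h11 : (Q (i+2) : ℝ) ≤ r.den := by
        have h12 : (Q (i+2) : ℝ) ≤ Q (i+2) * (r.den * |(Q (i+1) : ℝ) * θ - P (i+1)|) :=
          le_mul_of_one_le_right hQp.le h7
        have h13 : (Q (i+2) : ℝ) * (r.den * |(Q (i+1) : ℝ) * θ - P (i+1)|) =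
            r.den * (Q (i+2) * |(Q (i+1) : ℝ) * θ - P (i+1)|) := by ring
        have h14 : (r.den : ℝ) * (Q (i+2) * |(Q (i+1) : ℝ) * θ - P (i+1)|) ≤ r.den * 1 :=
          mul_le_mul_of_nonneg_left h10 hden.le
        linarith
      exact_mod_cast h11
    have h15 := key r.den
    have h16 : r.den + 2 ≤ Q (r.den + 2) := hmono.id_le (r.den + 2)
    omega
  · intro i
    have : IsCoprime (Q (i+1) : ℤ) (P (i+1) : ℤ) := by
      have hdi := hd i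
      have h2 : ((-1 : ℤ)) ^ i * (-1) ^ i = 1 := by rw [← mul_pow]; simp
      exact ⟨-((-1) ^ i * P i), (-1) ^ i * Q i, by
        calc -((-1) ^ i * (P i : ℤ)) * Q (i+1) + (-1) ^ i * Q i * P (i+1)
            = (-1) ^ i * ((P (i+1) : ℤ) * Q i - P i * Q (i+1)) := by ring
          _ = 1 := by rw [hdi, h2]⟩
    exact Nat.isCoprime_iff_coprime.1 this
  · intro i
    obtain ⟨h1, h2, _, h4⟩ := hlev i
    exact ⟨h1, h2, h4⟩
  · intro n m hc hn hlt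
    have hex : ∃ j, n < Q (j+1) := ⟨n, lt_of_lt_of_le (Nat.lt_succ_self n) (hmono.id_le (n+1))⟩
    classical
    obtain ⟨j, hj⟩ : ∃ j, j = Nat.find hex := ⟨_, rfl⟩
    have hj1 : n < Q (j+1) := hj ▸ Nat.find_spec hex
    have hj0 : j ≠ 0 := by
      rintro rfl
      simp only at hn
      omega
    obtain ⟨i, rfl⟩ := Nat.exists_eq_succ_of_ne_zero hj0
    have hj2 : Q (i+1) ≤ n := by
      have := Nat.find_min hex (m := i) (by omega)
      omega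
    refine ⟨i, ?_⟩
    by_contra hne
    have := near (hdabs (i+1)) (hθ (i+1)) (hlev i).2.2.1 hc hj2 hj1 (hpos (i+1)).1 hne
    linarith

end Pool.Agent.U367.NC
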