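import Pool.Agent.U367.NC.CF

set_option autoImplicit false

namespace Pool.Agent.U367.NC

open Filter Topology Set Real

/-- difference estimate -/
theorem diff_est {b θ : ℝ} (hb : 1 < b) (q p : ℕ) (h : log b * |q * θ - p| ≤ 1) :
    |(|b ^ ((q : ℝ) * θ) - b ^ p| - b ^ p * (log b * |q * θ - p|))| ≤
      b ^ p * (log b * |q * θ - p|) ^ 2 := by
  have hb0 : 0 < b := by linarith
  have hB : 0 < log b := log_pos hb
  obtain ⟨t, ht⟩ : ∃ t : ℝ, t = log b * (q * θ - p) := ⟨_, rfl⟩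
  have htabs : |t| = log b * |q * θ - p| := by rw [ht, abs_mul, abs_of_pos hB]
  have e1 : b ^ ((q : ℝ) * θ) - b ^ p = b ^ p * (exp t - 1) := by
    rw [← Real.rpow_natCast b p, Real.rpow_def_of_pos hb0, Real.rpow_def_of_pos hb0, mul_sub,
      ← Real.exp_add, ht, mul_one]
    congr 2
    ring
  have hbp : 0 < b ^ p := by positivity
  rw [← htabs] at h ⊢
  rw [e1, abs_mul, abs_of_pos hbp, ← mul_sub, abs_mul, abs_of_pos hbp]
  apply mul_le_mul_of_nonneg_left _ hbp.le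
  calc |(|exp t - 1| - |t|)| ≤ |exp t - 1 - t| := abs_abs_sub_abs_le _ _
    _ ≤ t ^ 2 := Real.abs_exp_sub_one_sub_id_le h
    _ = |t| ^ 2 := (sq_abs t).symm

theorem level {b θ : ℝ} (hb : 1 < b) {q qm q' q'' p A l : ℕ} {e' : ℝ}
    (hA : A = ⌊b ^ p * log b / (((l : ℝ) - 1 / 2) * q)⌋₊) (hl : 1 ≤ l) (hq : 0 < q)
    (hqm : qm ≤ q) (hq' : q' = A * q + qm) (hq'' : q' ≤ q'')
    (hH : (6 + 2 * log b) * l ^ 2 * q ≤ b ^ p * log b)
    (h1 : (q' : ℝ) * |q * θ - p| + q * e' = 1) (h2 : (q'' : ℝ) * e' ≤ 1) (he' : 0 ≤ e') :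
    (l : ℝ) - 1 < |b ^ ((q : ℝ) * θ) - b ^ p| ∧ |b ^ ((q : ℝ) * θ) - b ^ p| ≤ l ∧
      1 ≤ 2 * q' * |q * θ - p| ∧ (l : ℝ) ^ 2 < b ^ ((q : ℝ) * θ) := by
  have hb0 : 0 < b := by linarith
  have hB : 0 < log b := log_pos hb
  set B := log b
  set M := b ^ p * B with hM
  have hbp : 0 < b ^ p := by positivity
  have hM0 : 0 < M := by positivity
  have hlr : (1 : ℝ) ≤ l := by exact_mod_cast hl
  have hqr : (1 : ℝ) ≤ q := by exact_mod_cast hq
  set e := |(q : ℝ) * θ - p|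
  have he : 0 ≤ e := abs_nonneg _
  set Y := M / ((l : ℝ) - 1 / 2) with hY
  have hl2 : (0 : ℝ) < (l : ℝ) - 1 / 2 := by linarith
  have hYM : Y * ((l : ℝ) - 1 / 2) = M := div_mul_cancel₀ M hl2.ne'
  have hYq : M / (((l : ℝ) - 1 / 2) * q) = Y / q := by rw [hY, div_div]
  have hY0 : 0 < Y := by positivity
  have hA1 : (A : ℝ) * q ≤ Y := by
    have : (A : ℝ) ≤ Y / q := by rw [hA, hYq]; exact Nat.floor_le (by positivity)
    rwa [le_div_iff₀ (by linarith)] at this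
  have hA2 : Y < A * q + q := by
    have : Y / q < A + 1 := by rw [hA, hYq]; exact Nat.lt_floor_add_one _
    rw [div_lt_iff₀ (by linarith)] at this
    linarith
  have hqmr : (qm : ℝ) ≤ q := by exact_mod_cast hqm
  have hqm0 : (0 : ℝ) ≤ qm := Nat.cast_nonneg _
  have hq'r : (q' : ℝ) = A * q + qm := by rw [hq']; push_cast; ring
  have hlow : Y - q < q' := by rw [hq'r]; linarith
  have hup : (q' : ℝ) ≤ Y + q := by rw [hq'r]; linarith
  -- lower bound for q'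
  have hY2 : (6 + 2 * B) * l * q ≤ Y := by
    rw [hY, le_div_iff₀ hl2]
    calc (6 + 2 * B) * l * q * ((l : ℝ) - 1 / 2) ≤ (6 + 2 * B) * l * q * l :=
          mul_le_mul_of_nonneg_left (by linarith) (by positivity)
      _ = (6 + 2 * B) * l ^ 2 * q := by ring
      _ ≤ M := hH
  have hlq : (q : ℝ) ≤ l * q := le_mul_of_one_le_left (by linarith) hlr
  have hbig : (5 + 2 * B) * (l * q) ≤ q' := by
    have : (5 + 2 * B) * (l * q) = (6 + 2 * B) * l * q - l * q := by ring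
    linarith
  have hlq0 : (0 : ℝ) < l * q := by positivity
  have hq'0 : (0 : ℝ) < q' := lt_of_lt_of_le (by positivity) hbig
  set ρ := (q : ℝ) / q' with hρ
  have hρ0 : 0 < ρ := by positivity
  have hρq : ρ * q' = q := by rw [hρ]; field_simp
  have hw : (5 + 2 * B) * (l * ρ) ≤ 1 := by
    rw [hρ, ← mul_div_assoc, ← mul_div_assoc, div_le_one hq'0]; exact hbig
  set w := (l : ℝ) * ρ with hwdef
  have hw0 : 0 < w := by positivity
  have hρw : ρ ≤ w := le_mul_of_one_le_left hρ0.le hlr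
  have hw' : 5 * w + 2 * (B * w) ≤ 1 := by
    have : (5 + 2 * B) * w = 5 * w + 2 * (B * w) := by ring
    linarith
  have hBw0 : 0 < B * w := mul_pos hB hw0
  have hw5 : 5 * w ≤ 1 := by linarith
  have hq''r : (q' : ℝ) ≤ q'' := by exact_mod_cast hq''
  have he'2 : q * e' ≤ ρ := by
    have : (q' : ℝ) * e' ≤ 1 := (mul_le_mul_of_nonneg_right hq''r he').trans h2
    calc q * e' = ρ * (q' * e') := by rw [← mul_assoc, hρq]
      _ ≤ ρ * 1 := mul_le_mul_of_nonneg_left this hρ0.le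
      _ = ρ := mul_one _
  have hqe'0 : 0 ≤ (q : ℝ) * e' := by positivity
  have hqe1 : (q' : ℝ) * e ≤ 1 := by linarith
  have hqe2 : 1 - ρ ≤ q' * e := by linarith
  have hqe3 : (q : ℝ) * e ≤ ρ := by
    calc q * e = ρ * (q' * e) := by rw [← mul_assoc, hρq]
      _ ≤ ρ * 1 := mul_le_mul_of_nonneg_left hqe1 hρ0.le
      _ = ρ := mul_one _
  have heρ : e ≤ ρ := le_trans (le_mul_of_one_le_left he hqr) hqe3
  have hYe1 : Y * e ≤ 1 + 2 * ρ := by
    have : Y * e ≤ (q' + q) * e := mul_le_mul_of_nonneg_right (by linarith) he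
    rw [add_mul] at this
    linarith
  have hYe2 : 1 - 2 * ρ ≤ Y * e := by
    have : (q' - q) * e ≤ Y * e := mul_le_mul_of_nonneg_right (by linarith) he
    rw [sub_mul] at this
    linarith
  have hMe : M * e = (l - 1 / 2) * (Y * e) := by rw [← hYM]; ring
  have hMe1 : M * e ≤ (l - 1 / 2) + 2 * w := by
    rw [hMe]
    have : ((l : ℝ) - 1 / 2) * (Y * e) ≤ (l - 1 / 2) * (1 + 2 * ρ) :=
      mul_le_mul_of_nonneg_left hYe1 hl2.le
    have h3 : ((l : ℝ) - 1 / 2) * (1 + 2 * ρ) = (l - 1 / 2) + 2 * w - ρ := by rw [hwdef]; ring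
    linarith
  have hMe2 : (l - 1 / 2) - 2 * w ≤ M * e := by
    rw [hMe]
    have : ((l : ℝ) - 1 / 2) * (1 - 2 * ρ) ≤ (l - 1 / 2) * (Y * e) :=
      mul_le_mul_of_nonneg_left hYe2 hl2.le
    have h3 : ((l : ℝ) - 1 / 2) * (1 - 2 * ρ) = (l - 1 / 2) - 2 * w + ρ := by rw [hwdef]; ring
    linarith
  have hMel : M * e ≤ l := by linarith
  have hBe : B * e ≤ B * ρ := mul_le_mul_of_nonneg_left heρ hB.le
  have hBρ : B * ρ ≤ B * w := mul_le_mul_of_nonneg_left hρw hB.le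
  have hBw : 2 * (B * w) ≤ 1 := by linarith
  have hd := diff_est (θ := θ) hb q p (by show B * e ≤ 1; linarith)
  change |(|b ^ ((q : ℝ) * θ) - b ^ p| - b ^ p * (B * e))| ≤ b ^ p * (B * e) ^ 2 at hd
  set D := |b ^ ((q : ℝ) * θ) - b ^ p| with hD
  have hd2 : b ^ p * (B * e) ^ 2 ≤ B * w := by
    calc b ^ p * (B * e) ^ 2 = (M * e) * (B * e) := by rw [hM]; ring
      _ ≤ l * (B * ρ) := mul_le_mul hMel hBe (by positivity) (by positivity)
      _ = B * w := by rw [hwdef]; ring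
  have hd3 : b ^ p * (B * e) = M * e := by rw [hM]; ring
  rw [hd3] at hd
  have hd4 := abs_le.1 (hd.trans hd2)
  have hDu : D ≤ l := by linarith [hd4.2]
  have hDl : (l : ℝ) - 1 < D := by linarith [hd4.1]
  have hρ5 : ρ ≤ 1 / 5 := by linarith
  refine ⟨hDl, hDu, by linarith, ?_⟩
  have h5 : b ^ p - b ^ ((q : ℝ) * θ) ≤ D := by
    rw [hD, abs_sub_comm]; exact le_abs_self _
  have h6 : 2 * (l : ℝ) ^ 2 * B < b ^ p * B := by
    refine lt_of_lt_of_le ?_ hH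
    have h7 : 2 * (l : ℝ) ^ 2 * B < (6 + 2 * B) * l ^ 2 := by
      have : (6 + 2 * B) * (l : ℝ) ^ 2 = 2 * (l : ℝ) ^ 2 * B + 6 * l ^ 2 := by ring
      have h71 : 0 < (l : ℝ) ^ 2 := by positivity
      linarith
    have h8 : (6 + 2 * B) * (l : ℝ) ^ 2 ≤ (6 + 2 * B) * l ^ 2 * q :=
      le_mul_of_one_le_right (by positivity) hqr
    linarith
  have h9 : 2 * (l : ℝ) ^ 2 < b ^ p := lt_of_mul_lt_mul_right h6 hB.le
  have h10 : (l : ℝ) ≤ l ^ 2 := by
    rw [pow_two]; exact le_mul_of_one_le_left (by linarith) hlr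
  linarith

end Pool.Agent.U367.NC
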